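import Mathlib
import Pool.Agent.H59.L.S8.H691R3.Places
import Pool.Agent.H59.L.S8.TH876.Pade

set_option autoImplicit false

/-!
# Local heights of points of `a + b + c = 0` and the comparison of two points
-/

namespace Pool.Agent.TH876.Loc

open NumberField IsDedekindDomain Finset Pool.Agent.H691R3 Pool.Agent.TH876.Pade

/-- the primes of `K` -/
abbrev Pr (K : Type) [Field K] [NumberField K] := HeightOneSpectrum (𝓞 K)

variable {K : Type} [Field K] [NumberField K]

/-- the absolute value at a place -/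
noncomputable def av (v : Pl K) : AbsoluteValue K ℝ :=
  Sum.elim (fun w : InfinitePlace K => w.1) (fun v : HeightOneSpectrum (𝓞 K) => fv v) v

/-- the multiplicity of a place -/
noncomputable def mt (v : Pl K) : ℝ :=
  Sum.elim (fun w : InfinitePlace K => (w.mult : ℝ)) (fun _ : HeightOneSpectrum (𝓞 K) => 1) v

/-- the constant in the triangle inequality -/
noncomputable def cv (v : Pl K) : ℝ :=
  Sum.elim (fun _ : InfinitePlace K => (2 : ℝ)) (fun _ : HeightOneSpectrum (𝓞 K) => 1) v

theorem mt_pos (v : Pl K) : 0 < mt v := by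
  rcases v with w | v
  · unfold mt; simp only [Sum.elim_inl]; exact_mod_cast InfinitePlace.mult_pos
  · exact one_pos

theorem one_le_cv (v : Pl K) : 1 ≤ cv v := by
  rcases v with w | v
  · show (1 : ℝ) ≤ 2
    norm_num
  · exact le_rfl

theorem av_add (v : Pl K) (a b : K) : av v (a + b) ≤ cv v * max (av v a) (av v b) := by
  rcases v with w | v
  · show w.1 (a + b) ≤ 2 * max (w.1 a) (w.1 b)
    refine (w.1.add_le a b).trans ?_
    have h1 := le_max_left (w.1 a) (w.1 b)
    have h2 := le_max_right (w.1 a) (w.1 b)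
    linarith
  · show fv v (a + b) ≤ 1 * max (fv v a) (fv v b)
    rw [one_mul]
    exact fv_na v a b

theorem fv_natCast_le (v : Pr K) (n : ℕ) : fv v (n : K) ≤ 1 := by
  induction n with
  | zero => simp
  | succ n ih =>
    rw [Nat.cast_succ]
    refine (fv_na v _ _).trans (max_le ih ?_)
    rw [map_one]

theorem fv_sum_le (v : Pr K) {ι : Type*} (s : Finset ι) (f : ι → K) (B : ℝ) (hB : 0 ≤ B)
    (h : ∀ i ∈ s, fv v (f i) ≤ B) : fv v (∑ i ∈ s, f i) ≤ B := by
  classical
  induction s using Finset.induction_on with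
  | empty => simpa using hB
  | insert i s hi ih =>
    rw [Finset.sum_insert hi]
    refine (fv_na v _ _).trans (max_le (h i (Finset.mem_insert_self _ _)) (ih ?_))
    exact fun j hj => h j (Finset.mem_insert_of_mem hj)

theorem av_W_le (v : Pl K) (N : ℕ) {x y : K} {m : ℝ} (hm : 0 ≤ m) (hx : av v x ≤ m)
    (hy : av v y ≤ m) : av v (W N x y) ≤ cv v ^ (5 * N + 1) * m ^ N := by
  have hmono : ∀ j ∈ range (N + 1), av v (x ^ j * y ^ (N - j)) ≤ m ^ N := by
    intro j hj
    have hj' : j ≤ N := Nat.lt_succ_iff.1 (Finset.mem_range.1 hj)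
    rw [map_mul, map_pow, map_pow]
    calc av v x ^ j * av v y ^ (N - j) ≤ m ^ j * m ^ (N - j) :=
          mul_le_mul (pow_le_pow_left₀ ((av v).nonneg _) hx _)
            (pow_le_pow_left₀ ((av v).nonneg _) hy _) (pow_nonneg ((av v).nonneg _) _)
            (pow_nonneg hm _)
      _ = m ^ N := by rw [← pow_add]; congr 1; omega
  rcases v with w | v
  · show w.1 (W N x y) ≤ 2 ^ (5 * N + 1) * m ^ N
    have hmono' : ∀ j ∈ range (N + 1), w.1 (x ^ j * y ^ (N - j)) ≤ m ^ N := hmono
    unfold W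
    refine (w.1.sum_le _ _).trans ?_
    have h1 : ∀ j ∈ range (N + 1), w.1 ((cf N j : K) * x ^ j * y ^ (N - j)) ≤
        (cf N j : ℝ) * m ^ N := by
      intro j hj
      rw [mul_assoc, map_mul]
      have h2 : w.1 (cf N j : K) = (cf N j : ℝ) := by
        have : w ((cf N j : ℕ) : K) = ((cf N j : ℕ) : ℝ) := by
          rw [← InfinitePlace.norm_embedding_eq, map_natCast, Complex.norm_natCast]
        exact this
      rw [h2]
      exact mul_le_mul_of_nonneg_left (hmono' j hj) (Nat.cast_nonneg _)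
    refine (Finset.sum_le_sum h1).trans ?_
    rw [← Finset.sum_mul]
    refine mul_le_mul_of_nonneg_right ?_ (pow_nonneg hm _)
    exact_mod_cast sum_cf_le N
  · show fv v (W N x y) ≤ 1 ^ (5 * N + 1) * m ^ N
    have hmono' : ∀ j ∈ range (N + 1), fv v (x ^ j * y ^ (N - j)) ≤ m ^ N := hmono
    rw [one_pow, one_mul]
    unfold W
    refine fv_sum_le v _ _ _ (pow_nonneg hm _) ?_
    intro j hj
    rw [mul_assoc, map_mul]
    calc fv v (cf N j : K) * fv v (x ^ j * y ^ (N - j)) ≤ 1 * m ^ N :=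
          mul_le_mul (fv_natCast_le v _) (hmono' j hj) ((fv v).nonneg _) zero_le_one
      _ = m ^ N := one_mul _

/-- the logarithm of the normalised absolute value -/
noncomputable def lg (v : Pl K) (x : K) : ℝ := mt v * Real.log (av v x)

theorem lg_one (v : Pl K) : lg v (1 : K) = 0 := by
  unfold lg; rw [map_one, Real.log_one, mul_zero]

/-- the three coordinates -/
def L (i : Fin 3) (x : K) : K := ![x, 1, -x - 1] i

/-- `x` is different from `0` and `-1` -/
def Pt (x : K) : Prop := x ≠ 0 ∧ x + 1 ≠ 0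

theorem L_ne {x : K} (hx : Pt x) (i : Fin 3) : L i x ≠ 0 := by
  fin_cases i
  · exact hx.1
  · exact one_ne_zero
  · show -x - 1 ≠ 0
    intro h
    apply hx.2
    linear_combination -h

theorem L_sum (x : K) : L 0 x + L 1 x + L 2 x = 0 := by
  show x + 1 + (-x - 1) = 0
  ring

/-- the maximum of the three absolute values -/
noncomputable def M (v : Pl K) (x : K) : ℝ := max (av v (L 0 x)) (max (av v (L 1 x)) (av v (L 2 x)))

theorem av_L_le (v : Pl K) (x : K) (i : Fin 3) : av v (L i x) ≤ M v x := by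
  unfold M
  fin_cases i
  · exact le_max_left _ _
  · exact (le_max_left _ _).trans (le_max_right _ _)
  · exact (le_max_right _ _).trans (le_max_right _ _)

theorem M_attained (v : Pl K) (x : K) : ∃ i, M v x = av v (L i x) := by
  unfold M
  rcases max_choice (av v (L 0 x)) (max (av v (L 1 x)) (av v (L 2 x))) with h | h
  · exact ⟨0, h⟩
  · rcases max_choice (av v (L 1 x)) (av v (L 2 x)) with h' | h'
    · exact ⟨1, by rw [h, h']⟩
    · exact ⟨2, by rw [h, h']⟩

theorem one_le_M (v : Pl K) (x : K) : 1 ≤ M v x := by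
  have h := av_L_le v x 1
  have h1 : av v (L 1 x) = 1 := by
    show av v 1 = 1
    exact map_one _
  rwa [h1] at h

/-- the local contribution to the height -/
noncomputable def mx (v : Pl K) (x : K) : ℝ := mt v * Real.log (M v x)

theorem mx_nonneg (v : Pl K) (x : K) : 0 ≤ mx v x :=
  mul_nonneg (mt_pos v).le (Real.log_nonneg (one_le_M v x))

/-- the defect of the `i`-th coordinate -/
noncomputable def df (v : Pl K) (i : Fin 3) (x : K) : ℝ := mx v x - lg v (L i x)

theorem df_nonneg (v : Pl K) (i : Fin 3) {x : K} (hx : Pt x) : 0 ≤ df v i x := by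
  unfold df mx lg
  rw [← mul_sub]
  refine mul_nonneg (mt_pos v).le (sub_nonneg.2 ?_)
  exact Real.log_le_log ((av v).pos (L_ne hx i)) (av_L_le v x i)

/-- the total defect -/
noncomputable def gd (v : Pl K) (x : K) : ℝ := ∑ i, df v i x

theorem gd_nonneg (v : Pl K) {x : K} (hx : Pt x) : 0 ≤ gd v x :=
  Finset.sum_nonneg fun i _ => df_nonneg v i hx

theorem df_le_gd (v : Pl K) (i : Fin 3) {x : K} (hx : Pt x) : df v i x ≤ gd v x :=
  Finset.single_le_sum (f := fun i => df v i x) (fun i _ => df_nonneg v i hx) (Finset.mem_univ i)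

/-- the minor of the instance of degree `N` at `x` and the point `y` -/
def Dl (N : ℕ) (x y : K) : K := x ^ (2 * N + 1) * W N x 1 - y * W N 1 (-x - 1)

/-- the local inequality -/
theorem local_ineq (v : Pl K) (N : ℕ) {x y : K} (hx : Pt x) (hy : Pt y) (hD : Dl N x y ≠ 0) (q : ℝ)
    (hq : ∀ i, lg v (L i y) - (2 * N + 1 : ℕ) * lg v (L i x) ≤ q) :
    lg v (Dl N x y) + ((N : ℝ) + 1) * mx v x ≤
      (5 * N + 2 : ℕ) * (mt v * Real.log (cv v)) + q + (2 * N + 1 : ℕ) * ∑ i, lg v (L i x) := by
  have hmt := mt_pos v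
  have hcv := one_le_cv v
  have hcv0 : 0 < cv v := lt_of_lt_of_le one_pos hcv
  have hM := one_le_M v x
  have hM0 : 0 < M v x := lt_of_lt_of_le one_pos hM
  set k := 2 * N + 1 with hk
  set t : ℝ := q / mt v with ht
  set Q : ℝ := Real.exp t with hQ
  have hQ0 : 0 < Q := Real.exp_pos t
  set p : Fin 3 → ℝ := fun i => av v (L i x) with hp
  have hp0 : ∀ i, 0 < p i := fun i => (av v).pos (L_ne hx i)
  have hp' : ∀ i, av v (L i y) ≤ Q * p i ^ k := by
    intro i
    have h1 := hq i
    have hy0 : 0 < av v (L i y) := (av v).pos (L_ne hy i)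
    unfold lg at h1
    have h2 : Real.log (av v (L i y)) ≤ t + k * Real.log (p i) := by
      have h3 : mt v * (Real.log (av v (L i y)) - k * Real.log (p i)) ≤ q := by
        rw [hp]; linarith
      have h4 : Real.log (av v (L i y)) - k * Real.log (p i) ≤ t := by
        rw [ht, le_div_iff₀ hmt]; linarith
      linarith
    rw [← Real.log_le_log_iff hy0 (mul_pos hQ0 (pow_pos (hp0 i) _)), Real.log_mul hQ0.ne'
      (pow_pos (hp0 i) _).ne', hQ, Real.log_exp, Real.log_pow]
    exact h2
  -- the vector u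
  set B : ℝ := cv v ^ (5 * N + 1) * M v x ^ N with hB
  have hB0 : 0 ≤ B := by positivity
  have hL := av_L_le v x
  set u : Fin 3 → K := ![L 0 x ^ k * W N (L 0 x) (L 1 x), L 1 x ^ k * W N (L 1 x) (L 2 x),
    L 2 x ^ k * W N (L 2 x) (L 0 x)] with hu
  have hub : ∀ i, av v (u i) ≤ p i ^ k * B := by
    intro i
    fin_cases i
    · show av v (L 0 x ^ k * W N (L 0 x) (L 1 x)) ≤ _
      rw [map_mul, map_pow]
      exact mul_le_mul_of_nonneg_left (av_W_le v N hM0.le (hL 0) (hL 1)) (pow_nonneg (hp0 0).le _)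
    · show av v (L 1 x ^ k * W N (L 1 x) (L 2 x)) ≤ _
      rw [map_mul, map_pow]
      exact mul_le_mul_of_nonneg_left (av_W_le v N hM0.le (hL 1) (hL 2)) (pow_nonneg (hp0 1).le _)
    · show av v (L 2 x ^ k * W N (L 2 x) (L 0 x)) ≤ _
      rw [map_mul, map_pow]
      exact mul_le_mul_of_nonneg_left (av_W_le v N hM0.le (hL 2) (hL 0)) (pow_nonneg (hp0 2).le _)
  have husum : u 0 + u 1 + u 2 = 0 := ident_field (L_sum x) N
  have hysum := L_sum y
  have hDu : Dl N x y = u 0 * L 1 y - u 1 * L 0 y := by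
    show x ^ (2 * N + 1) * W N x 1 - y * W N 1 (-x - 1) =
      x ^ k * W N x 1 * 1 - 1 ^ k * W N 1 (-x - 1) * y
    rw [hk]; ring
  have key : ∀ i j l : Fin 3, Dl N x y = u i * L j y - u j * L i y →
      av v (Dl N x y) * p l ^ k ≤ cv v ^ (5 * N + 2) * M v x ^ N * Q * (p i ^ k * p j ^ k * p l ^ k) := by
    intro i j l h
    have h1 : av v (Dl N x y) ≤ cv v * (B * Q * (p i ^ k * p j ^ k)) := by
      rw [h, sub_eq_add_neg]
      refine (av_add v _ _).trans (mul_le_mul_of_nonneg_left (max_le ?_ ?_) hcv0.le)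
      · rw [map_mul]
        calc av v (u i) * av v (L j y) ≤ (p i ^ k * B) * (Q * p j ^ k) :=
              mul_le_mul (hub i) (hp' j) ((av v).nonneg _) (mul_nonneg (pow_nonneg (hp0 i).le _) hB0)
          _ = B * Q * (p i ^ k * p j ^ k) := by ring
      · rw [(av v).map_neg, map_mul]
        calc av v (u j) * av v (L i y) ≤ (p j ^ k * B) * (Q * p i ^ k) :=
              mul_le_mul (hub j) (hp' i) ((av v).nonneg _) (mul_nonneg (pow_nonneg (hp0 j).le _) hB0)
          _ = B * Q * (p i ^ k * p j ^ k) := by ring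
    calc av v (Dl N x y) * p l ^ k ≤ cv v * (B * Q * (p i ^ k * p j ^ k)) * p l ^ k :=
          mul_le_mul_of_nonneg_right h1 (pow_nonneg (hp0 l).le _)
      _ = _ := by rw [hB]; ring
  have key2 : ∀ l : Fin 3, av v (Dl N x y) * p l ^ k ≤
      cv v ^ (5 * N + 2) * M v x ^ N * Q * (p 0 ^ k * p 1 ^ k * p 2 ^ k) := by
    intro l
    fin_cases l
    · refine (key 1 2 0 ?_).trans (le_of_eq (by ring))
      rw [hDu]
      linear_combination (L 1 y) * husum - (u 1) * hysum
    · refine (key 2 0 1 ?_).trans (le_of_eq (by ring))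
      rw [hDu]
      linear_combination (-L 0 y) * husum + (u 0) * hysum
    · exact key 0 1 2 hDu
  obtain ⟨l, hl⟩ := M_attained v x
  have h5 := key2 l
  have hpl : p l = M v x := by rw [hp]; exact hl.symm
  rw [hpl] at h5
  have hD0 : 0 < av v (Dl N x y) := (av v).pos hD
  have hP0 : 0 < p 0 ^ k * p 1 ^ k * p 2 ^ k :=
    mul_pos (mul_pos (pow_pos (hp0 0) _) (pow_pos (hp0 1) _)) (pow_pos (hp0 2) _)
  have h6 := Real.log_le_log (mul_pos hD0 (pow_pos hM0 _)) h5
  rw [Real.log_mul hD0.ne' (pow_pos hM0 _).ne', Real.log_mul (by positivity) hP0.ne',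
    Real.log_mul (by positivity) hQ0.ne', Real.log_mul (by positivity) (by positivity),
    Real.log_pow, Real.log_pow, Real.log_pow,
    Real.log_mul (mul_pos (pow_pos (hp0 0) _) (pow_pos (hp0 1) _)).ne' (pow_pos (hp0 2) _).ne',
    Real.log_mul (pow_pos (hp0 0) _).ne' (pow_pos (hp0 1) _).ne', Real.log_pow, Real.log_pow,
    Real.log_pow, hQ, Real.log_exp] at h6
  have h7 := mul_le_mul_of_nonneg_left h6 hmt.le
  have h8 : mt v * t = q := by rw [ht]; field_simp
  have h9 : ∑ i, lg v (L i x) = mt v * (Real.log (p 0) + Real.log (p 1) + Real.log (p 2)) := by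
    rw [Fin.sum_univ_three]
    unfold lg
    ring
  rw [h9]
  unfold lg mx
  have hkr : (k : ℝ) = 2 * N + 1 := by rw [hk]; push_cast; ring
  rw [hkr] at h7 ⊢
  nlinarith [h7, h8]

end Pool.Agent.TH876.Loc
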