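import Mathlib
import Pool.Agent.H59.L.S8.TH876.Loc

set_option autoImplicit false

/-!
# Heights and the comparison of two points
-/

namespace Pool.Agent.TH876.Loc

open NumberField IsDedekindDomain Finset Pool.Agent.H691R3 Pool.Agent.TH876.Pade

variable {K : Type} [Field K] [NumberField K]

/-- the infinite places and the primes of `S` -/
noncomputable def Spl (S : Finset (Pr K)) : Finset (Pl K) :=
  (Finset.univ : Finset (InfinitePlace K)).disjSum S

theorem inl_mem_Spl (S : Finset (Pr K)) (w : InfinitePlace K) : (Sum.inl w : Pl K) ∈ Spl S := by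
  unfold Spl
  rw [Finset.inl_mem_disjSum]
  exact Finset.mem_univ w

theorem inr_mem_Spl (S : Finset (Pr K)) (v : Pr K) : (Sum.inr v : Pl K) ∈ Spl S ↔ v ∈ S := by
  unfold Spl
  rw [Finset.inr_mem_disjSum]

theorem sum_Spl (S : Finset (Pr K)) (g : Pl K → ℝ) :
    ∑ v ∈ Spl S, g v = ∑ w : InfinitePlace K, g (Sum.inl w) + ∑ v ∈ S, g (Sum.inr v) := by
  unfold Spl
  rw [Finset.sum_disjSum]

theorem card_Spl (S : Finset (Pr K)) :
    (Spl S).card = Fintype.card (InfinitePlace K) + S.card := by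
  unfold Spl
  rw [Finset.card_disjSum, Finset.card_univ]

theorem Spl_mono {S V : Finset (Pr K)} (h : S ⊆ V) : Spl S ⊆ Spl V := by
  intro v hv
  rcases v with w | v
  · exact inl_mem_Spl V w
  · rw [inr_mem_Spl] at *
    exact h hv

theorem sum_lg {z : K} (hz : z ≠ 0) {V : Finset (Pr K)} (hV : ∀ v, v ∉ V → fv v z = 1) :
    ∑ v ∈ Spl V, lg v z = 0 := by
  rw [sum_Spl, ← log_product_formula (K := K) hz]
  congr 1
  rw [finsum_eq_sum_of_support_subset (s := V)]
  · refine Finset.sum_congr rfl fun v _ => ?_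
    show 1 * Real.log (fv v z) = _
    rw [one_mul]
  · intro v hv
    by_contra h
    rw [Function.mem_support] at hv
    apply hv
    rw [hV v h, Real.log_one]

open Classical in
/-- the primes where some coordinate is not a unit -/
noncomputable def sp (x : K) : Finset (Pr K) :=
  if h : {v : Pr K | ¬ (fv v x = 1 ∧ fv v (x + 1) = 1)}.Finite then h.toFinset else ∅

theorem sp_finite {x : K} (hx : Pt x) : {v : Pr K | ¬ (fv v x = 1 ∧ fv v (x + 1) = 1)}.Finite := by
  refine ((fv_support_finite hx.1).union (fv_support_finite hx.2)).subset ?_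
  intro v hv
  rw [Set.mem_ofPred_eq] at hv
  by_cases h : fv v x = 1
  · right
    exact fun h' => hv ⟨h, h'⟩
  · left
    exact h

theorem mem_sp {x : K} (hx : Pt x) (v : Pr K) : v ∈ sp x ↔ ¬ (fv v x = 1 ∧ fv v (x + 1) = 1) := by
  unfold sp
  rw [dif_pos (sp_finite hx), Set.Finite.mem_toFinset, Set.mem_ofPred_eq]

theorem fv_L {x : K} (hx : Pt x) {v : Pr K} (hv : v ∉ sp x) (i : Fin 3) : fv v (L i x) = 1 := by
  rw [mem_sp hx, not_not] at hv
  fin_cases i
  · exact hv.1
  · show fv v 1 = 1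
    exact map_one _
  · show fv v (-x - 1) = 1
    have : -x - 1 = -(x + 1) := by ring
    rw [this, (fv v).map_neg]
    exact hv.2

theorem lg_eq_zero {x : K} (hx : Pt x) {v : Pr K} (hv : v ∉ sp x) (i : Fin 3) :
    lg (Sum.inr v : Pl K) (L i x) = 0 := by
  show 1 * Real.log (fv v (L i x)) = 0
  rw [fv_L hx hv, Real.log_one, mul_zero]

theorem mx_eq_zero {x : K} (hx : Pt x) {v : Pr K} (hv : v ∉ sp x) : mx (Sum.inr v : Pl K) x = 0 := by
  obtain ⟨i, hi⟩ := M_attained (Sum.inr v : Pl K) x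
  unfold mx
  rw [hi]
  show 1 * Real.log (fv v (L i x)) = 0
  rw [fv_L hx hv, Real.log_one, mul_zero]

theorem gd_eq_zero {x : K} (hx : Pt x) {v : Pr K} (hv : v ∉ sp x) : gd (Sum.inr v : Pl K) x = 0 := by
  unfold gd df
  refine Finset.sum_eq_zero fun i _ => ?_
  rw [mx_eq_zero hx hv, lg_eq_zero hx hv, sub_zero]

/-- the relative logarithmic height of `(x : 1 : -x-1)` -/
noncomputable def hgt (x : K) : ℝ := ∑ v ∈ Spl (sp x), mx v x

theorem hgt_eq {x : K} (hx : Pt x) {V : Finset (Pr K)} (hV : sp x ⊆ V) :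
    ∑ v ∈ Spl V, mx v x = hgt x := by
  unfold hgt
  symm
  refine Finset.sum_subset (Spl_mono hV) ?_
  intro v _ hv
  rcases v with w | v
  · exact absurd (inl_mem_Spl _ w) hv
  · rw [inr_mem_Spl] at hv
    exact mx_eq_zero hx hv

theorem sum_lgL {x : K} (hx : Pt x) {V : Finset (Pr K)} (hV : sp x ⊆ V) (i : Fin 3) :
    ∑ v ∈ Spl V, lg v (L i x) = 0 :=
  sum_lg (L_ne hx i) fun _ hv => fv_L hx (fun h => hv (hV h)) i

theorem sum_df {x : K} (hx : Pt x) {V : Finset (Pr K)} (hV : sp x ⊆ V) (i : Fin 3) :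
    ∑ v ∈ Spl V, df v i x = hgt x := by
  unfold df
  rw [Finset.sum_sub_distrib, sum_lgL hx hV, sub_zero, hgt_eq hx hV]

theorem sum_gd {x : K} (hx : Pt x) {V : Finset (Pr K)} (hV : sp x ⊆ V) :
    ∑ v ∈ Spl V, gd v x = 3 * hgt x := by
  unfold gd
  rw [Finset.sum_comm, Fin.sum_univ_three, sum_df hx hV, sum_df hx hV, sum_df hx hV]
  ring

theorem hgt_nonneg (x : K) : 0 ≤ hgt x := Finset.sum_nonneg fun v _ => mx_nonneg v x

open Classical in
/-- the contribution of the primes outside `S` -/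
noncomputable def out (S : Finset (Pr K)) (x : K) : ℝ := ∑ v ∈ sp x \ S, gd (Sum.inr v : Pl K) x

open Classical in
theorem out_eq (S : Finset (Pr K)) {x : K} (hx : Pt x) {V : Finset (Pr K)} (hV : sp x ⊆ V) :
    ∑ v ∈ V \ S, gd (Sum.inr v : Pl K) x = out S x := by
  unfold out
  symm
  refine Finset.sum_subset (Finset.sdiff_subset_sdiff hV (Finset.Subset.refl S)) ?_
  intro v hv hv'
  rw [Finset.mem_sdiff] at hv hv'
  exact gd_eq_zero hx fun h => hv' ⟨h, hv.2⟩

variable (K) in
/-- the degree of `K` -/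
noncomputable def dK : ℝ := ∑ w : InfinitePlace K, (w.mult : ℝ)

theorem sum_cv (V : Finset (Pr K)) : ∑ v ∈ Spl V, mt v * Real.log (cv v) = dK K * Real.log 2 := by
  rw [sum_Spl]
  have h1 : ∑ v ∈ V, mt (Sum.inr v : Pl K) * Real.log (cv (Sum.inr v : Pl K)) = 0 := by
    refine Finset.sum_eq_zero fun v _ => ?_
    show 1 * Real.log 1 = 0
    rw [Real.log_one, mul_zero]
  rw [h1, add_zero]
  unfold dK
  rw [Finset.sum_mul]
  rfl

/-- the comparison of two points -/
theorem pair {S : Finset (Pr K)} {x y : K} (hx : Pt x) (hy : Pt y) (N : ℕ) (hD : Dl N x y ≠ 0)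
    (h0 : 0 < hgt x) (hk : (2 * N + 1 : ℕ) * hgt x ≤ hgt y) (ε : ℝ) (hε : 0 ≤ ε)
    (hcell : ∀ v ∈ Spl S, ∀ i, df v i x / hgt x ≤ df v i y / hgt y + ε)
    (κ : ℝ) (hκ : out S x ≤ κ * hgt x) :
    ((N : ℝ) + 1) * hgt x ≤ (5 * N + 2 : ℕ) * (dK K * Real.log 2) +
      (1 + (Spl S).card * ε) * hgt y - (2 * N + 1 : ℕ) * (1 - κ) * hgt x := by
  classical
  set k := 2 * N + 1 with hkdef
  have hk1 : (1 : ℝ) ≤ k := by rw [hkdef]; push_cast; linarith [(Nat.cast_nonneg N : (0:ℝ) ≤ N)]
  have hk0 : (0 : ℝ) ≤ k := by linarith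
  have hy0 : 0 < hgt y := by nlinarith
  set V : Finset (Pr K) := (sp x ∪ sp y) ∪ ((fv_support_finite hD).toFinset ∪ S) with hV
  have hVx : sp x ⊆ V := Finset.subset_union_left.trans Finset.subset_union_left
  have hVy : sp y ⊆ V := Finset.subset_union_right.trans Finset.subset_union_left
  have hVS : S ⊆ V := Finset.subset_union_right.trans Finset.subset_union_right
  have hVD : ∀ v, v ∉ V → fv v (Dl N x y) = 1 := by
    intro v hv
    by_contra h
    apply hv
    rw [hV]
    refine Finset.mem_union_right _ (Finset.mem_union_left _ ?_)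
    rw [Set.Finite.mem_toFinset]
    exact h
  set q : Pl K → ℝ := fun v => mx v y - k * mx v x +
    (if v ∈ Spl S then ε * hgt y else k * gd v x) with hq
  have hqv : ∀ v, ∀ i, lg v (L i y) - (k : ℕ) * lg v (L i x) ≤ q v := by
    intro v i
    have e1 : lg v (L i y) = mx v y - df v i y := by unfold df; ring
    have e2 : lg v (L i x) = mx v x - df v i x := by unfold df; ring
    rw [e1, e2, hq]
    simp only
    have d1 := df_nonneg v i hx
    have d2 := df_nonneg v i hy
    split_ifs with hv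
    · have h1 := hcell v hv i
      have h2 : df v i x * hgt y ≤ (df v i y + ε * hgt y) * hgt x := by
        rw [div_add' _ _ _ hy0.ne', div_le_div_iff₀ h0 hy0] at h1
        linarith
      have h3 : (k : ℝ) * df v i x * hgt x ≤ df v i x * hgt y := by nlinarith
      have h4 : (k : ℝ) * df v i x ≤ df v i y + ε * hgt y :=
        le_of_mul_le_mul_right (h3.trans h2) h0
      nlinarith
    · have h1 := df_le_gd v i hx
      nlinarith
  have hsum := Finset.sum_le_sum (s := Spl V) fun v _ => local_ineq v N hx hy hD (q v) (hqv v)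
  rw [Finset.sum_add_distrib, sum_lg hD hVD, ← Finset.mul_sum, hgt_eq hx hVx,
    Finset.sum_add_distrib, Finset.sum_add_distrib, ← Finset.mul_sum, sum_cv, ← Finset.mul_sum,
    Finset.sum_comm (s := Spl V), Fin.sum_univ_three, sum_lgL hx hVx, sum_lgL hx hVx,
    sum_lgL hx hVx] at hsum
  have hqsum : ∑ v ∈ Spl V, q v = hgt y - k * hgt x + ((Spl S).card * (ε * hgt y) + k * out S x) := by
    rw [hq]
    simp only
    rw [Finset.sum_add_distrib, Finset.sum_sub_distrib, ← Finset.mul_sum, hgt_eq hx hVx,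
      hgt_eq hy hVy, Finset.sum_ite]
    congr 1
    congr 1
    · rw [Finset.sum_const, nsmul_eq_mul]
      congr 2
      congr 1
      rw [Finset.filter_mem_eq_inter]
      exact Finset.inter_eq_right.2 (Spl_mono hVS)
    · rw [← Finset.mul_sum, ← out_eq S hx hVx]
      congr 1
      have : (Spl V).filter (fun v => v ∉ Spl S) = (V \ S).map ⟨Sum.inr, Sum.inr_injective⟩ := by
        ext v
        rw [Finset.mem_filter, Finset.mem_map]
        constructor
        · rintro ⟨h1, h2⟩
          rcases v with w | v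
          · exact absurd (inl_mem_Spl _ w) h2
          · rw [inr_mem_Spl] at h1 h2
            exact ⟨v, Finset.mem_sdiff.2 ⟨h1, h2⟩, rfl⟩
        · rintro ⟨u, hu, rfl⟩
          rw [Finset.mem_sdiff] at hu
          simp only [Function.Embedding.coeFn_mk]
          rw [inr_mem_Spl, inr_mem_Spl]
          exact hu
      rw [this, Finset.sum_map]
      rfl
  rw [hqsum] at hsum
  have h7 : (k : ℝ) * out S x ≤ k * (κ * hgt x) := mul_le_mul_of_nonneg_left hκ hk0
  nlinarith

end Pool.Agent.TH876.Loc
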