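import Mathlib
import Pool.Agent.H59.L.S8.TH876.Cell

set_option autoImplicit false

/-!
# Points of bounded height, uniformly in the field
-/

namespace Pool.Agent.TH876.Loc

open NumberField IsDedekindDomain Finset Pool.Agent.H691R3

/-- the elements of a field of degree `n` with bounded denominators and conjugates -/
theorem count_bounded (n : ℕ) (M : ℕ) : ∃ C : ℝ, 0 ≤ C ∧ ∀ (K : Type) [Field K] [NumberField K],
    Module.finrank ℚ K = n → ∀ E : Finset K,
    (∀ x ∈ E, (∃ m : ℕ, m ≠ 0 ∧ m ≤ M ∧ IsIntegral ℤ ((m : K) * x)) ∧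
      ∀ w : InfinitePlace K, w x ≤ M) → (E.card : ℝ) ≤ C := by
  set c : ℕ := ⌈(max ((M : ℝ) * M) 1) ^ n * (n.choose (n / 2) : ℝ)⌉₊ with hc
  refine ⟨(n : ℝ) * ((M + 1) * (2 * c + 1) ^ (n + 1)), by positivity, ?_⟩
  intro K _ _ hn E hE
  classical
  have hex : ∀ x : K, ∃ m : ℕ, x ∈ E → (m ≠ 0 ∧ m ≤ M ∧ IsIntegral ℤ ((m : K) * x)) := by
    intro x
    by_cases hx : x ∈ E
    · obtain ⟨m, h1, h2, h3⟩ := (hE x hx).1
      exact ⟨m, fun _ => ⟨h1, h2, h3⟩⟩
    · exact ⟨0, fun h => absurd h hx⟩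
  choose m hm using hex
  set g : K → ℕ × (Fin (n + 1) → ℤ) :=
    fun x => (m x, fun i => (minpoly ℤ ((m x : K) * x)).coeff i) with hg
  set T : Finset (ℕ × (Fin (n + 1) → ℤ)) :=
    Finset.range (M + 1) ×ˢ Fintype.piFinset (fun _ => Finset.Icc (-(c : ℤ)) c) with hT
  have hmaps : ∀ x ∈ E, g x ∈ T := by
    intro x hx
    obtain ⟨h1, h2, h3⟩ := hm x hx
    rw [hT, Finset.mem_product]
    refine ⟨Finset.mem_range.2 (Nat.lt_succ_of_le h2), ?_⟩
    rw [Fintype.mem_piFinset]
    intro i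
    have h4 : ∀ φ : K →+* ℂ, ‖φ ((m x : K) * x)‖ ≤ (M : ℝ) * M := by
      intro φ
      have h5 := (hE x hx).2 (InfinitePlace.mk φ)
      rw [InfinitePlace.apply] at h5
      rw [map_mul, norm_mul, map_natCast, Complex.norm_natCast]
      have h6 : ((m x : ℕ) : ℝ) ≤ M := by exact_mod_cast h2
      exact mul_le_mul h6 h5 (norm_nonneg _) (Nat.cast_nonneg _)
    have h7 := Embeddings.coeff_bdd_of_norm_le (K := K) (A := ℂ) h4 i
    rw [hn] at h7
    have h8 : minpoly ℚ ((m x : K) * x) = (minpoly ℤ ((m x : K) * x)).map (Int.castRingHom ℚ) := by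
      exact minpoly.isIntegrallyClosed_eq_field_fractions' ℚ h3
    rw [h8, Polynomial.coeff_map, eq_intCast, Int.norm_cast_rat, Int.norm_eq_abs] at h7
    have h9 : |((minpoly ℤ ((m x : K) * x)).coeff i : ℝ)| ≤ (c : ℝ) := h7.trans (Nat.le_ceil _)
    have h10 : |(minpoly ℤ ((m x : K) * x)).coeff i| ≤ (c : ℤ) := by exact_mod_cast h9
    rw [Finset.mem_Icc]
    exact abs_le.1 h10
  have hfib : ∀ t ∈ T, (E.filter fun x => g x = t).card ≤ n := by
    intro t _
    rcases (E.filter fun x => g x = t).eq_empty_or_nonempty with h | ⟨y, hy⟩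
    · rw [h]; simp
    obtain ⟨hyE, hyt⟩ := Finset.mem_filter.1 hy
    obtain ⟨y1, y2, y3⟩ := hm y hyE
    set p := minpoly ℤ ((m y : K) * y) with hp
    have hdeg : ∀ x ∈ E, (minpoly ℤ ((m x : K) * x)).natDegree ≤ n := by
      intro x hx
      obtain ⟨_, _, h3⟩ := hm x hx
      have h8 : minpoly ℚ ((m x : K) * x) = (minpoly ℤ ((m x : K) * x)).map (Int.castRingHom ℚ) :=
        minpoly.isIntegrallyClosed_eq_field_fractions' ℚ h3
      have h9 := minpoly.natDegree_le (A := ℚ) ((m x : K) * x)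
      rw [h8, Polynomial.natDegree_map_eq_of_injective (Int.castRingHom ℚ).injective_int, hn] at h9
      exact h9
    have hsame : ∀ x ∈ E.filter fun x => g x = t, minpoly ℤ ((m x : K) * x) = p ∧ m x = m y := by
      intro x hx
      obtain ⟨hxE, hxt⟩ := Finset.mem_filter.1 hx
      have h1 : g x = g y := hxt.trans hyt.symm
      have h2 : m x = m y := congrArg Prod.fst h1
      refine ⟨?_, h2⟩
      ext i
      by_cases hi : i < n + 1
      · exact congrFun (congrArg Prod.snd h1) ⟨i, hi⟩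
      · rw [Polynomial.coeff_eq_zero_of_natDegree_lt, Polynomial.coeff_eq_zero_of_natDegree_lt]
        · exact lt_of_le_of_lt (hdeg y hyE) (by omega)
        · exact lt_of_le_of_lt (hdeg x hxE) (by omega)
    have hp0 : p ≠ 0 := minpoly.ne_zero y3
    have hmap : (p.map (algebraMap ℤ K)) ≠ 0 := by
      rw [Ne, Polynomial.map_eq_zero_iff (algebraMap ℤ K).injective_int]
      exact hp0
    have hmy : ((m y : ℕ) : K) ≠ 0 := by exact_mod_cast y1
    have hcard : (E.filter fun x => g x = t).card ≤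
        (p.map (algebraMap ℤ K)).roots.toFinset.card := by
      refine Finset.card_le_card_of_injOn (fun x => (m y : K) * x) ?_ ?_
      · intro x hx
        obtain ⟨h1, h2⟩ := hsame x hx
        rw [Finset.mem_coe, Multiset.mem_toFinset, Polynomial.mem_roots hmap,
          Polynomial.IsRoot, Polynomial.eval_map_algebraMap, ← h1, ← h2]
        exact minpoly.aeval ℤ _
      · intro x _ x' _ hxx
        exact mul_left_cancel₀ hmy hxx
    refine hcard.trans ((Multiset.toFinset_card_le _).trans ((Polynomial.card_roots' _).trans ?_))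
    exact (Polynomial.natDegree_map_le).trans (hdeg y hyE)
  have h1 : E.card ≤ n * T.card := by
    have h2 : E.card ≤ n * (E.image g).card := by
      refine Finset.card_le_mul_card_image E n fun t ht => ?_
      obtain ⟨x, hx, rfl⟩ := Finset.mem_image.1 ht
      exact hfib _ (hmaps x hx)
    refine h2.trans (Nat.mul_le_mul_left _ (Finset.card_le_card ?_))
    intro t ht
    obtain ⟨x, hx, rfl⟩ := Finset.mem_image.1 ht
    exact hmaps x hx
  have hTc : T.card = (M + 1) * (2 * c + 1) ^ (n + 1) := by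
    rw [hT, Finset.card_product, Finset.card_range, Fintype.card_piFinset_const, Int.card_Icc]
    congr 2
    omega
  rw [hTc] at h1
  exact_mod_cast h1

/-- points of bounded height, uniformly in the field -/
theorem northcott_uniform (n : ℕ) (B : ℝ) : ∃ C : ℝ, 0 ≤ C ∧
    ∀ (K : Type) [Field K] [NumberField K], Module.finrank ℚ K = n → ∀ E : Finset K,
    (∀ x ∈ E, Pt x ∧ hgt x < B) → (E.card : ℝ) ≤ C := by
  obtain ⟨C, hC0, hC⟩ := count_bounded n ⌈Real.exp B⌉₊
  refine ⟨C, hC0, ?_⟩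
  intro K _ _ hn E hE
  refine hC K hn E ?_
  intro x hx
  obtain ⟨hP, hB⟩ := hE x hx
  constructor
  · obtain ⟨m, h1, h2, h3⟩ := exists_nat_le_mulHeight₁ x
    refine ⟨m, h1, ?_, h3⟩
    have h4 : Height.mulHeight₁ x ≤ Real.exp B := by
      have h5 := (logHeight_le hP).trans hB.le
      rw [Height.logHeight₁_eq_log_mulHeight₁, Real.log_le_iff_le_exp (Height.mulHeight₁_pos x)] at h5
      exact h5
    have h6 : (m : ℝ) ≤ (⌈Real.exp B⌉₊ : ℝ) := (h2.trans h4).trans (Nat.le_ceil _)
    exact_mod_cast h6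
  · intro w
    refine le_trans ?_ (Nat.le_ceil _)
    have h1 : mx (Sum.inl w : Pl K) x ≤ hgt x := by
      unfold hgt
      exact Finset.single_le_sum (f := fun v => mx v x) (fun v _ => mx_nonneg v x)
        (inl_mem_Spl (sp x) w)
    have h2 : Real.log (w x) ≤ mx (Sum.inl w : Pl K) x := by
      have h3 : Real.log (w x) ≤ Real.log (M (Sum.inl w : Pl K) x) :=
        Real.log_le_log (InfinitePlace.pos_iff.mpr hP.1) (av_L_le (Sum.inl w : Pl K) x 0)
      have h4 : 0 ≤ Real.log (M (Sum.inl w : Pl K) x) := Real.log_nonneg (one_le_M _ x)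
      have h5 : (1 : ℝ) ≤ mt (Sum.inl w : Pl K) := by
        show (1 : ℝ) ≤ (w.mult : ℝ)
        exact_mod_cast InfinitePlace.mult_pos
      unfold mx
      nlinarith
    have h3 : Real.log (w x) ≤ B := by linarith
    rwa [Real.log_le_iff_le_exp (InfinitePlace.pos_iff.mpr hP.1)] at h3

end Pool.Agent.TH876.Loc
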