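import Mathlib
import Pool.Agent.H59.L.S8.TH876.Light
import Pool.Agent.H59.L.S8.Helper256.KM.Mertens

set_option autoImplicit false

/-!
# Sums over primes of a number field
-/

namespace Pool.Agent.TH876.Loc

open NumberField IsDedekindDomain Finset Pool.Agent.H691R3

section Primes

variable {K : Type} [Field K] [NumberField K]

/-- the rational prime below -/
noncomputable def pv (v : Pr K) : ℕ := Ideal.absNorm (Ideal.under ℤ v.asIdeal)

theorem pv_prime (v : Pr K) : (pv v).Prime := by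
  have : v.asIdeal.IsPrime := v.isPrime
  have : NeZero v.asIdeal := ⟨v.ne_bot⟩
  exact Nat.absNorm_under_prime v.asIdeal

theorem pv_dvd (v : Pr K) : pv v ∣ Ideal.absNorm v.asIdeal :=
  Int.absNorm_under_dvd_absNorm v.asIdeal

theorem absNorm_ne_zero (v : Pr K) : Ideal.absNorm v.asIdeal ≠ 0 := by
  rw [Ne, Ideal.absNorm_eq_zero_iff]
  exact v.ne_bot

theorem pv_le (v : Pr K) : pv v ≤ Ideal.absNorm v.asIdeal :=
  Nat.le_of_dvd (Nat.pos_of_ne_zero (absNorm_ne_zero v)) (pv_dvd v)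

theorem pv_le_Nv (v : Pr K) : (pv v : ℝ) ≤ Nv v := by
  unfold Nv
  exact_mod_cast pv_le v

theorem pv_mem (v : Pr K) : ((pv v : ℕ) : 𝓞 K) ∈ v.asIdeal := Int.absNorm_under_mem v.asIdeal

open Classical in
/-- at most `[K : ℚ]` primes above a rational prime -/
theorem card_above (p : ℕ) (F : Finset (Pr K)) (h : ∀ v ∈ F, pv v = p) :
    F.card ≤ Module.finrank ℚ K := by
  rcases F.eq_empty_or_nonempty with rfl | ⟨v0, hv0⟩
  · simp
  have hp : p.Prime := by rw [← h v0 hv0]; exact pv_prime v0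
  have h1 : ∏ v ∈ F, v.asIdeal ∣ Ideal.span {((p : ℕ) : 𝓞 K)} := by
    have h2 : ∏ v ∈ F, v.asIdeal = ∏ I ∈ F.image (fun v : Pr K => v.asIdeal), I := by
      classical
      rw [Finset.prod_image]
      intro u _ v _ huv
      exact HeightOneSpectrum.ext huv
    rw [h2]
    refine Finset.prod_primes_dvd _ ?_ ?_
    · intro I hI
      obtain ⟨v, _, rfl⟩ := Finset.mem_image.1 hI
      exact v.prime
    · intro I hI
      obtain ⟨v, hv, rfl⟩ := Finset.mem_image.1 hI
      rw [Ideal.dvd_span_singleton, ← h v hv]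
      exact pv_mem v
  have h3 := Ideal.absNorm_dvd_absNorm_of_le (Ideal.le_of_dvd h1)
  rw [Ideal.absNorm_span_natCast, map_prod, RingOfIntegers.rank] at h3
  have h4 : p ^ F.card ∣ ∏ v ∈ F, Ideal.absNorm v.asIdeal := by
    rw [← Finset.prod_const]
    refine Finset.prod_dvd_prod_of_dvd _ _ fun v hv => ?_
    rw [← h v hv]
    exact pv_dvd v
  exact (Nat.pow_dvd_pow_iff_le_right hp.one_lt).1 (h4.trans h3)

/-- the number of primes up to `X` -/
theorem card_primes_le {X : ℝ} (hX : 1 < X) (F : Finset (Pr K)) (h : ∀ v ∈ F, Nv v ≤ X) :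
    (F.card : ℝ) ≤ 5 * (Module.finrank ℚ K) * (X / Real.log X) := by
  classical
  have h1 : F.card ≤ Module.finrank ℚ K * (F.image pv).card := by
    refine Finset.card_le_mul_card_image F _ ?_
    intro p _
    exact card_above p _ fun v hv => (Finset.mem_filter.1 hv).2
  have h2 : (F.image pv).card ≤ Nat.primeCounting ⌊X⌋₊ := by
    rw [Nat.primeCounting, Nat.primeCounting', Nat.count_eq_card_filter_range]
    refine Finset.card_le_card fun p hp => ?_
    obtain ⟨v, hv, rfl⟩ := Finset.mem_image.1 hp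
    rw [Finset.mem_filter, Finset.mem_range, Nat.lt_succ_iff]
    exact ⟨Nat.le_floor ((pv_le_Nv v).trans (h v hv)), pv_prime v⟩
  have h3 := Chebyshev.pi_le_log4_mul_div hX
  have hX0 : 0 < X := by linarith
  have hlog : 0 < Real.log X := Real.log_pos hX
  have hs : 0 < Real.sqrt X := Real.sqrt_pos.2 hX0
  have hls : Real.log (Real.sqrt X) = Real.log X / 2 := Real.log_sqrt hX0.le
  have h4 : Real.sqrt X ≤ 2 * (X / Real.log X) := by
    have h5 : Real.log X ≤ 2 * Real.sqrt X := by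
      have := Real.log_le_sub_one_of_pos hs
      rw [hls] at this
      linarith
    rw [← mul_div_assoc, le_div_iff₀ hlog]
    have h6 : Real.sqrt X * Real.sqrt X = X := Real.mul_self_sqrt hX0.le
    nlinarith
  have h4' : Real.log 4 ≤ 3 / 2 := by
    have : (4 : ℝ) = 2 ^ 2 := by norm_num
    rw [this, Real.log_pow]
    have := Real.log_two_lt_d9
    push_cast
    linarith
  have h7 : (Nat.primeCounting ⌊X⌋₊ : ℝ) ≤ 5 * (X / Real.log X) := by
    refine h3.trans ?_
    rw [hls]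
    have h8 : Real.log 4 * X / (Real.log X / 2) = 2 * Real.log 4 * (X / Real.log X) := by
      field_simp
    rw [h8]
    have h9 : 0 ≤ X / Real.log X := by positivity
    nlinarith
  calc (F.card : ℝ) ≤ (Module.finrank ℚ K : ℝ) * ((F.image pv).card : ℝ) := by exact_mod_cast h1
    _ ≤ (Module.finrank ℚ K : ℝ) * (5 * (X / Real.log X)) := by
        refine mul_le_mul_of_nonneg_left ?_ (Nat.cast_nonneg _)
        refine le_trans ?_ h7
        exact_mod_cast h2
    _ = _ := by ring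

/-- the sum of the reciprocals of the norms of the primes up to `X` -/
theorem sum_inv_le : ∃ c : ℝ, 0 ≤ c ∧ ∀ (K : Type) [Field K] [NumberField K], ∀ (X : ℝ), 3 ≤ X →
    ∀ (F : Finset (Pr K)), (∀ v ∈ F, Nv v ≤ X) →
    ∑ v ∈ F, 1 / Nv v ≤ (Module.finrank ℚ K) * (Real.log (Real.log X) + c) := by
  classical
  obtain ⟨C, hC⟩ := Pool.Agent.Helper256.KM.mertens_inv
  have hC0 : 0 ≤ C := (abs_nonneg _).trans (hC 3 le_rfl)
  refine ⟨C, hC0, ?_⟩
  intro K _ _ X hX F hF
  set n := ⌊X⌋₊ with hn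
  have hn3 : 3 ≤ n := Nat.le_floor (by exact_mod_cast hX)
  have hnX : (n : ℝ) ≤ X := Nat.floor_le (by linarith)
  have hn3' : (3 : ℝ) ≤ n := by exact_mod_cast hn3
  have h1 : ∑ v ∈ F, 1 / Nv v ≤ ∑ v ∈ F, 1 / (pv v : ℝ) := by
    refine Finset.sum_le_sum fun v _ => ?_
    refine one_div_le_one_div_of_le ?_ (pv_le_Nv v)
    exact_mod_cast (pv_prime v).pos
  have h2 : ∑ v ∈ F, 1 / (pv v : ℝ) =
      ∑ p ∈ F.image pv, ((F.filter fun v => pv v = p).card : ℝ) * (1 / (p : ℝ)) := by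
    rw [Finset.sum_comp (fun p : ℕ => 1 / (p : ℝ)) pv]
    simp only [nsmul_eq_mul]
  have h3 : ∑ p ∈ F.image pv, ((F.filter fun v => pv v = p).card : ℝ) * (1 / (p : ℝ)) ≤
      ∑ p ∈ (Finset.Icc 1 n).filter Nat.Prime, (Module.finrank ℚ K : ℝ) * (1 / (p : ℝ)) := by
    refine (Finset.sum_le_sum (g := fun p : ℕ => (Module.finrank ℚ K : ℝ) * (1 / (p : ℝ)))
      fun p _ => ?_).trans (Finset.sum_le_sum_of_subset_of_nonneg ?_ fun _ _ _ => by positivity)
    · refine mul_le_mul_of_nonneg_right ?_ (by positivity)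
      exact_mod_cast card_above p _ fun v hv => (Finset.mem_filter.1 hv).2
    · intro p hp
      obtain ⟨v, hv, rfl⟩ := Finset.mem_image.1 hp
      rw [Finset.mem_filter, Finset.mem_Icc]
      exact ⟨⟨(pv_prime v).one_lt.le, Nat.le_floor ((pv_le_Nv v).trans (hF v hv))⟩, pv_prime v⟩
  have h4 := (abs_le.1 (hC n hn3)).2
  have h5 : Real.log (Real.log n) ≤ Real.log (Real.log X) := by
    have h6 : 0 < Real.log n := Real.log_pos (by linarith)
    exact Real.log_le_log h6 (Real.log_le_log (by linarith) hnX)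
  rw [← Finset.mul_sum] at h3
  calc ∑ v ∈ F, 1 / Nv v ≤ _ := h1
    _ = _ := h2
    _ ≤ _ := h3
    _ ≤ _ := mul_le_mul_of_nonneg_left (by linarith) (Nat.cast_nonneg _)

/-- the product of the norms -/
noncomputable def nn (s : Finset (Pr K)) : ℝ := ∏ v ∈ s, Nv v

theorem one_le_Nv (v : Pr K) : 1 ≤ Nv v := by linarith [two_le_Nv v]

theorem Nv_pos (v : Pr K) : 0 < Nv v := by linarith [two_le_Nv v]

theorem nn_pos (s : Finset (Pr K)) : 0 < nn s := Finset.prod_pos fun v _ => Nv_pos v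

theorem one_le_nn (s : Finset (Pr K)) : 1 ≤ nn s := by
  classical
  unfold nn
  induction s using Finset.induction_on with
  | empty => simp
  | insert v s hv ih =>
    rw [Finset.prod_insert hv]
    nlinarith [one_le_Nv v]

theorem Nv_le_nn {s : Finset (Pr K)} {v : Pr K} (hv : v ∈ s) : Nv v ≤ nn s := by
  classical
  have h := one_le_nn (s.erase v)
  have h1 : nn s = Nv v * nn (s.erase v) := by
    unfold nn
    rw [Finset.mul_prod_erase s _ hv]
  rw [h1]
  nlinarith [Nv_pos v]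

theorem nn_union {s t : Finset (Pr K)} [DecidableEq (Pr K)] (h : Disjoint s t) :
    nn (s ∪ t) = nn s * nn t := by
  unfold nn
  rw [Finset.prod_union h]

theorem nn_mono {s t : Finset (Pr K)} (h : s ⊆ t) : nn s ≤ nn t := by
  classical
  have h1 : nn t = nn (t \ s) * nn s := by
    unfold nn
    rw [Finset.prod_sdiff h]
  rw [h1]
  nlinarith [one_le_nn (t \ s), nn_pos s]

/-- sums over sets of primes -/
theorem sum_sets_le (w : Pr K → ℝ) (hw : ∀ v, 0 ≤ w v) (U : Finset (Pr K))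
    (S : Finset (Finset (Pr K))) (hS : ∀ s ∈ S, s ⊆ U) :
    ∑ s ∈ S, ∏ v ∈ s, w v ≤ Real.exp (∑ v ∈ U, w v) := by
  classical
  calc ∑ s ∈ S, ∏ v ∈ s, w v ≤ ∑ s ∈ U.powerset, ∏ v ∈ s, w v :=
        Finset.sum_le_sum_of_subset_of_nonneg (fun s hs => Finset.mem_powerset.2 (hS s hs))
          fun s _ _ => Finset.prod_nonneg fun v _ => hw v
    _ = ∏ v ∈ U, (1 + w v) := (Finset.prod_one_add _).symm
    _ ≤ ∏ v ∈ U, Real.exp (w v) := by
        refine Finset.prod_le_prod (fun v _ => by linarith [hw v]) fun v _ => ?_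
        linarith [Real.add_one_le_exp (w v)]
    _ = _ := (Real.exp_sum _ _).symm

/-- weighted count of squarefree ideals -/
theorem sum_pow_card (n : ℕ) (C : ℝ) (hC : 1 ≤ C) : ∃ (c : ℝ) (k : ℕ), 0 < c ∧
    ∀ (K : Type) [Field K] [NumberField K], Module.finrank ℚ K = n → ∀ (X : ℝ), 3 ≤ X →
    ∀ (S : Finset (Finset (Pr K))), (∀ s ∈ S, ∀ v ∈ s, Nv v ≤ X) →
    ∑ s ∈ S, ∏ v ∈ s, (C / Nv v) ≤ c * Real.log X ^ k := by
  classical
  obtain ⟨c0, hc0, h0⟩ := sum_inv_le
  obtain ⟨k, hk⟩ := exists_nat_ge (C * (n : ℝ))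
  refine ⟨Real.exp (C * (n : ℝ) * c0), k, Real.exp_pos _, ?_⟩
  intro K _ _ hn X hX S hS
  have hC0 : 0 < C := by linarith
  have hlog1 : 1 ≤ Real.log X := by
    rw [Real.le_log_iff_exp_le (by linarith)]
    have := Real.exp_one_lt_d9
    linarith
  have hlog0 : 0 < Real.log X := by linarith
  have hll : 0 ≤ Real.log (Real.log X) := Real.log_nonneg hlog1
  have h1 := sum_sets_le (fun v : Pr K => C / Nv v) (fun v => by have := Nv_pos v; positivity)
    (S.biUnion id) S (fun s hs => Finset.subset_biUnion_of_mem id hs)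
  refine h1.trans ?_
  have h2 : ∑ v ∈ S.biUnion id, C / Nv v ≤
      C * ((n : ℝ) * (Real.log (Real.log X) + c0)) := by
    have h3 : ∑ v ∈ S.biUnion id, C / Nv v = C * ∑ v ∈ S.biUnion id, 1 / Nv v := by
      rw [Finset.mul_sum]
      exact Finset.sum_congr rfl fun v _ => by ring
    rw [h3, ← hn]
    refine mul_le_mul_of_nonneg_left (h0 K X hX _ ?_) hC0.le
    intro v hv
    obtain ⟨s, hs, hv⟩ := Finset.mem_biUnion.1 hv
    exact hS s hs v hv
  refine (Real.exp_le_exp.2 h2).trans ?_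
  have h3 : C * ((n : ℝ) * (Real.log (Real.log X) + c0)) ≤
      C * (n : ℝ) * c0 + k * Real.log (Real.log X) := by
    nlinarith
  refine (Real.exp_le_exp.2 h3).trans ?_
  rw [Real.exp_add, Real.exp_nat_mul, Real.exp_log hlog0]

end Primes

end Pool.Agent.TH876.Loc
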