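import Mathlib
import Pool.Agent.H59.L.S8.TH876.Sums

set_option autoImplicit false

/-!
# Counting points by their radical
-/

namespace Pool.Agent.TH876.Loc

open NumberField IsDedekindDomain Finset Pool.Agent.H691R3

variable {K : Type} [Field K] [NumberField K]

/-- the set `s` contains `j` disjoint parts whose norms exceed `Y` -/
def Splits (Y : ℝ) (j : ℕ) (s : Finset (Pr K)) : Prop :=
  ∃ f : Pr K → ℕ, ∀ i < j, Y < nn (s.filter fun v => f v = i)

theorem nn_insert {s : Finset (Pr K)} {v : Pr K} [DecidableEq (Pr K)] (h : v ∉ s) :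
    nn (insert v s) = Nv v * nn s := by
  unfold nn
  rw [Finset.prod_insert h]

theorem nn_sdiff [DecidableEq (Pr K)] {s t : Finset (Pr K)} (h : t ⊆ s) :
    nn (s \ t) * nn t = nn s := by
  unfold nn
  rw [Finset.prod_sdiff h]

theorem split_small {Y : ℝ} (hY : 1 ≤ Y) (s : Finset (Pr K)) (hs : ∀ v ∈ s, Nv v ≤ Y)
    (h : Y < nn s) : ∃ t ⊆ s, Y < nn t ∧ nn t ≤ Y ^ 2 := by
  classical
  induction s using Finset.induction_on with
  | empty =>
    exfalso
    unfold nn at h
    rw [Finset.prod_empty] at h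
    linarith
  | insert v s hv ih =>
    by_cases hc : Y < nn s
    · obtain ⟨t, ht, h1, h2⟩ := ih (fun u hu => hs u (Finset.mem_insert_of_mem hu)) hc
      exact ⟨t, ht.trans (Finset.subset_insert _ _), h1, h2⟩
    · refine ⟨insert v s, Finset.Subset.refl _, h, ?_⟩
      rw [nn_insert hv, pow_two]
      exact mul_le_mul (hs v (Finset.mem_insert_self _ _)) (not_lt.1 hc) (nn_pos s).le
        (by linarith)

theorem split_G {Y : ℝ} (hY : 1 ≤ Y) (j : ℕ) : ∀ s : Finset (Pr K), (∀ v ∈ s, Nv v ≤ Y) →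
    Y ^ (2 * j) < nn s → Splits Y j s := by
  classical
  induction j with
  | zero =>
    intro s _ _
    exact ⟨fun _ => 0, fun i hi => absurd hi (Nat.not_lt_zero i)⟩
  | succ j ih =>
    intro s hs h
    have hY0 : 0 < Y := by linarith
    have h1 : Y < nn s := by
      refine lt_of_le_of_lt ?_ h
      exact le_self_pow₀ hY (by omega)
    obtain ⟨t, hts, ht1, ht2⟩ := split_small hY s hs h1
    have h2 : Y ^ (2 * j) < nn (s \ t) := by
      have h3 := nn_sdiff hts
      have h4 : Y ^ (2 * j) * nn t < nn (s \ t) * nn t := by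
        rw [h3]
        refine lt_of_le_of_lt ?_ h
        calc Y ^ (2 * j) * nn t ≤ Y ^ (2 * j) * Y ^ 2 :=
              mul_le_mul_of_nonneg_left ht2 (by positivity)
          _ = Y ^ (2 * (j + 1)) := by rw [← pow_add]; congr 1
      exact lt_of_mul_lt_mul_right h4 (nn_pos t).le
    obtain ⟨f, hf⟩ := ih (s \ t) (fun v hv => hs v (Finset.mem_sdiff.1 hv).1) h2
    refine ⟨fun v => if v ∈ t then j else f v, fun i hi => ?_⟩
    rcases Nat.lt_succ_iff_lt_or_eq.1 hi with hlt | rfl
    · have : (s.filter fun v => (if v ∈ t then j else f v) = i) =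
          ((s \ t).filter fun v => f v = i) := by
        ext v
        rw [Finset.mem_filter, Finset.mem_filter, Finset.mem_sdiff]
        by_cases hv : v ∈ t
        · rw [if_pos hv]
          constructor
          · rintro ⟨_, h⟩; omega
          · rintro ⟨⟨_, h⟩, _⟩; exact absurd hv h
        · rw [if_neg hv]
          constructor
          · rintro ⟨h1, h2⟩; exact ⟨⟨h1, hv⟩, h2⟩
          · rintro ⟨⟨h1, _⟩, h2⟩; exact ⟨h1, h2⟩
      simp only
      rw [this]
      exact hf i hlt
    · refine lt_of_lt_of_le ht1 (nn_mono ?_)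
      intro v hv
      rw [Finset.mem_filter]
      refine ⟨hts hv, ?_⟩
      simp only
      rw [if_pos hv]

theorem split_or {Y : ℝ} (hY : 1 ≤ Y) [DecidableEq (Pr K)] (j : ℕ) : ∀ s : Finset (Pr K),
    Splits Y j s ∨ ∃ b ⊆ s, b.card + 1 ≤ j ∧ nn (s \ b) ≤ Y ^ (2 * j) := by
  induction j with
  | zero =>
    intro s
    left
    exact ⟨fun _ => 0, fun i hi => absurd hi (Nat.not_lt_zero i)⟩
  | succ j ih =>
    intro s
    by_cases hbig : ∃ v ∈ s, Y < Nv v
    · obtain ⟨v, hv, hvY⟩ := hbig
      rcases ih (s.erase v) with ⟨f, hf⟩ | ⟨b, hb, hbc, hbn⟩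
      · left
        refine ⟨fun u => if u = v then j else f u, fun i hi => ?_⟩
        rcases Nat.lt_succ_iff_lt_or_eq.1 hi with hlt | rfl
        · have : (s.filter fun u => (if u = v then j else f u) = i) =
              ((s.erase v).filter fun u => f u = i) := by
            ext u
            rw [Finset.mem_filter, Finset.mem_filter, Finset.mem_erase]
            by_cases hu : u = v
            · rw [if_pos hu]
              constructor
              · rintro ⟨_, h⟩; omega
              · rintro ⟨⟨h, _⟩, _⟩; exact absurd hu h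
            · rw [if_neg hu]
              constructor
              · rintro ⟨h1, h2⟩; exact ⟨⟨hu, h1⟩, h2⟩
              · rintro ⟨⟨_, h1⟩, h2⟩; exact ⟨h1, h2⟩
          simp only
          rw [this]
          exact hf i hlt
        · refine lt_of_lt_of_le hvY (Nv_le_nn ?_)
          rw [Finset.mem_filter]
          exact ⟨hv, by simp⟩
      · right
        have hvb : v ∉ b := fun h => (Finset.mem_erase.1 (hb h)).1 rfl
        refine ⟨insert v b, ?_, ?_, ?_⟩
        · exact Finset.insert_subset hv (hb.trans (Finset.erase_subset _ _))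
        · rw [Finset.card_insert_of_notMem hvb]
          omega
        · have : s \ insert v b = (s.erase v) \ b := by
            ext u
            simp only [Finset.mem_sdiff, Finset.mem_insert, Finset.mem_erase, not_or]
            tauto
          rw [this]
          refine hbn.trans (pow_le_pow_right₀ hY (by omega))
    · have hall : ∀ v ∈ s, Nv v ≤ Y := fun v hv => not_lt.1 fun h => hbig ⟨v, hv, h⟩
      by_cases hn : nn s ≤ Y ^ (2 * (j + 1))
      · right
        refine ⟨∅, Finset.empty_subset _, ?_, ?_⟩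
        · simp
        · rw [Finset.sdiff_empty]
          exact hn
      · left
        exact split_G hY (j + 1) s hall (not_le.1 hn)

/-- sums over small sets of primes -/
theorem sum_few (w : Pr K → ℝ) (hw : ∀ v, 0 ≤ w v) (U : Finset (Pr K)) (W : ℝ) (hW : 1 ≤ W)
    (hU : ∑ v ∈ U, w v ≤ W) (m : ℕ) (S : Finset (Finset (Pr K)))
    (hS : ∀ s ∈ S, s ⊆ U ∧ s.card ≤ m) :
    ∑ s ∈ S, ∏ v ∈ s, w v ≤ Real.exp 1 * W ^ m := by
  have hW0 : 0 < W := by linarith
  have h1 : ∑ s ∈ S, ∏ v ∈ s, w v ≤ ∑ s ∈ S, W ^ m * ∏ v ∈ s, (w v / W) := by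
    refine Finset.sum_le_sum fun s hs => ?_
    rw [Finset.prod_div_distrib, Finset.prod_const]
    have h2 : 0 ≤ ∏ v ∈ s, w v := Finset.prod_nonneg fun v _ => hw v
    have h3 : W ^ s.card ≤ W ^ m := pow_le_pow_right₀ hW (hS s hs).2
    rw [mul_div_assoc', le_div_iff₀ (by positivity)]
    nlinarith
  refine h1.trans ?_
  rw [← Finset.mul_sum, mul_comm]
  refine mul_le_mul_of_nonneg_right ?_ (by positivity)
  refine (sum_sets_le (fun v => w v / W) (fun v => div_nonneg (hw v) hW0.le) U S
    fun s hs => (hS s hs).1).trans ?_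
  apply Real.exp_le_exp.2
  rw [← Finset.sum_div, div_le_one hW0]
  exact hU

theorem prod_C {C : ℝ} (s : Finset (Pr K)) : ∏ v ∈ s, (C / Nv v) = C ^ s.card / nn s := by
  rw [Finset.prod_div_distrib, Finset.prod_const]
  rfl

/-- the bound for the number of light points -/
def LightBound (n : ℕ) (κ C : ℝ) : Prop :=
  ∀ (K : Type) [Field K] [NumberField K], Module.finrank ℚ K = n →
    ∀ (S : Finset (Pr K)) (E : Finset K),
      (∀ x ∈ E, Pt x ∧ out S x ≤ κ * hgt x) → (E.card : ℝ) ≤ C ^ (S.card + 1)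

/-- counting points through sets outside of which they are light -/
theorem count_sets {n : ℕ} {κ C : ℝ} (hC1 : 1 ≤ C) (hC : LightBound n κ C) :
    ∃ (c : ℝ) (k : ℕ), 0 < c ∧ ∀ (K : Type) [Field K] [NumberField K], Module.finrank ℚ K = n →
      ∀ (X : ℝ), 3 ≤ X → ∀ (Z : ℝ), 0 < Z → ∀ (E : Finset K)
      (σ : K → Finset (Pr K)), (∀ x ∈ E, Pt x ∧ out (σ x) x ≤ κ * hgt x ∧ nn (σ x) ≤ Z ∧
        ∀ v ∈ σ x, Nv v ≤ X) → (E.card : ℝ) ≤ c * Z * Real.log X ^ k := by
  classical
  obtain ⟨c, k, hc, h⟩ := sum_pow_card n C hC1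
  refine ⟨C * c, k, by positivity, ?_⟩
  intro K _ _ hn X hX Z hZ E σ hE
  have h1 : (E.card : ℝ) ≤ ∑ s ∈ E.image σ, C ^ (s.card + 1) := by
    have h2 : (E.card : ℝ) = ∑ s ∈ E.image σ, ((E.filter fun x => σ x = s).card : ℝ) := by
      exact_mod_cast Finset.card_eq_sum_card_image σ E
    rw [h2]
    refine Finset.sum_le_sum fun s _ => hC K hn s _ fun x hx => ?_
    obtain ⟨hxE, hxs⟩ := Finset.mem_filter.1 hx
    have := hE x hxE
    rw [← hxs]
    exact ⟨this.1, this.2.1⟩
  have h3 : ∑ s ∈ E.image σ, C ^ (s.card + 1) ≤ ∑ s ∈ E.image σ, C * Z * ∏ v ∈ s, (C / Nv v) := by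
    refine Finset.sum_le_sum fun s hs => ?_
    obtain ⟨x, hx, rfl⟩ := Finset.mem_image.1 hs
    have h4 := (hE x hx).2.2.1
    rw [prod_C, pow_succ, mul_div_assoc', le_div_iff₀ (nn_pos _)]
    have h5 : 0 ≤ C ^ (σ x).card * C := by positivity
    nlinarith
  refine h1.trans (h3.trans ?_)
  rw [← Finset.mul_sum]
  have h6 := h K hn X hX (E.image σ) (by
    intro s hs v hv
    obtain ⟨x, hx, rfl⟩ := Finset.mem_image.1 hs
    exact (hE x hx).2.2.2 v hv)
  calc C * Z * ∑ s ∈ E.image σ, ∏ v ∈ s, (C / Nv v) ≤ C * Z * (c * Real.log X ^ k) :=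
        mul_le_mul_of_nonneg_left h6 (by positivity)
    _ = _ := by ring

/-- the smallest terms of a sum -/
theorem exists_small (g : ℕ → ℝ) (hg : ∀ i, 0 ≤ g i) (j : ℕ) (d : ℕ) : ∀ I : Finset ℕ,
    I.card = j + d → ∃ J ⊆ I, J.card = j ∧ (j + d : ℝ) * ∑ i ∈ J, g i ≤ j * ∑ i ∈ I, g i := by
  induction d with
  | zero =>
    intro I hI
    refine ⟨I, Finset.Subset.refl _, by simpa using hI, ?_⟩
    simp
  | succ d ih =>
    intro I hI
    have hne : I.Nonempty := by
      rw [← Finset.card_pos]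
      omega
    obtain ⟨m, hm, hmax⟩ := I.exists_max_image g hne
    have hc : (I.erase m).card = j + d := by
      rw [Finset.card_erase_of_mem hm, hI]
      omega
    obtain ⟨J, hJ, hJc, hJs⟩ := ih (I.erase m) hc
    refine ⟨J, hJ.trans (Finset.erase_subset _ _), hJc, ?_⟩
    have h1 : g m + ∑ i ∈ I.erase m, g i = ∑ i ∈ I, g i := Finset.add_sum_erase I g hm
    have h2 : ∑ i ∈ I.erase m, g i ≤ (j + d : ℝ) * g m := by
      have h3 : ∑ i ∈ I.erase m, g i ≤ ∑ _i ∈ I.erase m, g m :=
        Finset.sum_le_sum fun i hi => hmax i (Finset.mem_of_mem_erase hi)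
      rw [Finset.sum_const, hc, nsmul_eq_mul] at h3
      push_cast at h3
      exact h3
    rw [← h1]
    push_cast
    have h4 : 0 ≤ ∑ i ∈ J, g i := Finset.sum_nonneg fun i _ => hg i
    rcases Nat.eq_zero_or_pos (j + d) with h0 | h0
    · have hj : j = 0 := by omega
      subst hj
      rw [Finset.card_eq_zero] at hJc
      subst hJc
      simp
    · have h0' : (0 : ℝ) < (j : ℝ) + d := by exact_mod_cast h0
      have h5 : ∑ i ∈ J, g i ≤ j * g m := by
        have h6 : ((j : ℝ) + d) * ∑ i ∈ J, g i ≤ ((j : ℝ) + d) * (j * g m) := by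
          refine hJs.trans ?_
          have hj0 : (0 : ℝ) ≤ j := Nat.cast_nonneg _
          nlinarith
        exact le_of_mul_le_mul_left h6 h0'
      nlinarith

/-- a point with many parts is light outside a smaller set -/
theorem light_of_splits {x : K} (hx : Pt x) {Y : ℝ} (hY : 0 < Y) (j : ℕ)
    (h : Splits Y (6 * j + 1) (sp x)) :
    ∃ s ⊆ sp x, out s x ≤ (3 * j / (6 * j + 1)) * hgt x ∧ nn s * Y ^ j ≤ nn (sp x) := by
  classical
  obtain ⟨f, hf⟩ := h
  set g : ℕ → ℝ := fun i => ∑ v ∈ (sp x).filter (fun v => f v = i), gd (Sum.inr v : Pl K) x with hg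
  have hg0 : ∀ i, 0 ≤ g i := fun i => Finset.sum_nonneg fun v _ => gd_nonneg _ hx
  have hbi : ∀ J : Finset ℕ, ∑ i ∈ J, g i =
      ∑ v ∈ (sp x).filter (fun v => f v ∈ J), gd (Sum.inr v : Pl K) x := by
    intro J
    rw [hg]
    simp only
    rw [← Finset.sum_biUnion]
    · refine Finset.sum_congr ?_ fun _ _ => rfl
      ext v
      simp only [Finset.mem_biUnion, Finset.mem_filter]
      constructor
      · rintro ⟨i, hi, hv, rfl⟩
        exact ⟨hv, hi⟩
      · rintro ⟨hv, hi⟩
        exact ⟨f v, hi, hv, rfl⟩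
    · intro i _ i' _ hij
      rw [Function.onFun, Finset.disjoint_left]
      intro v hv hv'
      apply hij
      rw [← (Finset.mem_filter.1 hv).2, (Finset.mem_filter.1 hv').2]
  have h1 : ∑ i ∈ Finset.range (6 * j + 1), g i ≤ 3 * hgt x := by
    rw [hbi]
    have h2 : ∑ v ∈ (sp x).filter (fun v => f v ∈ Finset.range (6 * j + 1)),
        gd (Sum.inr v : Pl K) x ≤ ∑ v ∈ sp x, gd (Sum.inr v : Pl K) x :=
      Finset.sum_le_sum_of_subset_of_nonneg (Finset.filter_subset _ _) fun v _ _ => gd_nonneg _ hx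
    refine h2.trans ?_
    rw [← sum_gd hx (Finset.Subset.refl (sp x)), sum_Spl]
    have h3 : 0 ≤ ∑ w : InfinitePlace K, gd (Sum.inl w : Pl K) x :=
      Finset.sum_nonneg fun w _ => gd_nonneg _ hx
    linarith
  obtain ⟨J, hJ, hJc, hJs⟩ := exists_small g hg0 j (5 * j + 1) (Finset.range (6 * j + 1)) (by
    rw [Finset.card_range]; ring)
  have hd : (sp x) \ ((sp x).filter fun v => ¬ f v ∈ J) = (sp x).filter fun v => f v ∈ J := by
    ext v
    simp only [Finset.mem_sdiff, Finset.mem_filter]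
    tauto
  refine ⟨(sp x).filter fun v => ¬ f v ∈ J, Finset.filter_subset _ _, ?_, ?_⟩
  · unfold out
    rw [hd, ← hbi, div_mul_eq_mul_div, le_div_iff₀ (by positivity)]
    push_cast at hJs
    have hj0 : (0 : ℝ) ≤ j := Nat.cast_nonneg _
    nlinarith
  · have h5 := nn_sdiff (Finset.filter_subset (fun v => ¬ f v ∈ J) (sp x))
    rw [hd] at h5
    have h6 : Y ^ j ≤ nn ((sp x).filter fun v => f v ∈ J) := by
      have h7 : (sp x).filter (fun v => f v ∈ J) =
          J.biUnion fun i => (sp x).filter fun v => f v = i := by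
        ext v
        simp only [Finset.mem_biUnion, Finset.mem_filter]
        constructor
        · rintro ⟨hv, hi⟩
          exact ⟨f v, hi, hv, rfl⟩
        · rintro ⟨i, hi, hv, rfl⟩
          exact ⟨hv, hi⟩
      have h8 : nn (J.biUnion fun i => (sp x).filter fun v => f v = i) =
          ∏ i ∈ J, nn ((sp x).filter fun v => f v = i) := by
        unfold nn
        rw [Finset.prod_biUnion]
        intro i _ i' _ hij
        rw [Function.onFun, Finset.disjoint_left]
        intro v hv hv'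
        apply hij
        rw [← (Finset.mem_filter.1 hv).2, (Finset.mem_filter.1 hv').2]
      rw [h7, h8, ← hJc, ← Finset.prod_const]
      refine Finset.prod_le_prod (fun _ _ => hY.le) fun i hi => ?_
      exact (hf i (Finset.mem_range.1 (hJ hi))).le
    rw [← h5]
    nlinarith [nn_pos ((sp x).filter fun v => ¬ f v ∈ J)]

theorem out_sp {x : K} : out (sp x) x = 0 := by
  classical
  unfold out
  rw [Finset.sdiff_self, Finset.sum_empty]

end Pool.Agent.TH876.Loc
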